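import Pool.Agent.H57.EQ.Targets

/-!
# Row BKS: systems of blocks
-/

set_option autoImplicit false

namespace Pool.Agent.H2.EQM

open Pool.Agent.H68.BP Pool.Agent.H58.SF Pool.Agent.H53.GC Pool.Agent.H53.NR
open Pool.Agent.H57.EQ
open Function

/-- names of the points of the blocks -/
@[ext]
structure Nm (V : Type) where
  /-- the vector -/
  v : Fin 6 → V
  /-- the value -/
  a : V

section Key

variable {V : Type}

open Classical in
/-- the vector with the pattern `0` -/
noncomputable def bet (v : Fin 6 → V) : Fin 6 → V :=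
  if v = pat 1 (v 0) (v 1) then pat 0 (v 0) (v 1)
  else if v = pat 2 (v 1) (v 0) then pat 0 (v 1) (v 0) else v

open Classical in
/-- the pattern -/
noncomputable def rho (v : Fin 6 → V) : Fin 3 :=
  if v = pat 1 (v 0) (v 1) then 1 else if v = pat 2 (v 1) (v 0) then 2 else 0

theorem pat_eq_iff (r : Fin 3) (x y x' y' : V) :
    pat r x y = pat r x' y' ↔ x = x' ∧ y = y' := by
  constructor
  · intro h
    fin_cases r
    · exact ⟨congrFun h 0, congrFun h 2⟩
    · exact ⟨congrFun h 0, congrFun h 1⟩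
    · exact ⟨congrFun h 1, congrFun h 0⟩
  · rintro ⟨rfl, rfl⟩
    rfl

theorem pat_rel (r : Fin 3) (x y x' y' s t : V) :
    (∃ l, pat r x y l = s ∧ pat r x' y' l = t) ↔ (x = s ∧ x' = t) ∨ (y = s ∧ y' = t) := by
  constructor
  · rintro ⟨l, h1, h2⟩
    fin_cases r <;> fin_cases l <;> first
      | exact Or.inl ⟨h1, h2⟩
      | exact Or.inr ⟨h1, h2⟩
  · rintro (⟨rfl, rfl⟩ | ⟨rfl, rfl⟩)
    · fin_cases r
      · exact ⟨0, rfl, rfl⟩
      · exact ⟨0, rfl, rfl⟩
      · exact ⟨1, rfl, rfl⟩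
    · fin_cases r
      · exact ⟨2, rfl, rfl⟩
      · exact ⟨1, rfl, rfl⟩
      · exact ⟨0, rfl, rfl⟩

theorem pat_const (r : Fin 3) (x : V) : pat r x x = fun _ => x := by
  funext i
  fin_cases r <;> fin_cases i <;> rfl

theorem bet_pat (r : Fin 3) (x y : V) : bet (pat r x y) = pat 0 x y := by
  classical
  by_cases hxy : x = y
  · subst hxy
    rw [pat_const, pat_const]
    unfold bet
    rw [if_pos (pat_const 1 x).symm, pat_const]
  · fin_cases r
    · have h1 : ¬ (pat 0 x y = pat 1 (pat 0 x y 0) (pat 0 x y 1)) := by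
        intro h
        exact hxy (congrFun h 2).symm
      have h2 : ¬ (pat 0 x y = pat 2 (pat 0 x y 1) (pat 0 x y 0)) := by
        intro h
        exact hxy (congrFun h 2).symm
      change bet (pat 0 x y) = _
      unfold bet
      rw [if_neg h1, if_neg h2]
    · change bet (pat 1 x y) = _
      unfold bet
      exact if_pos rfl
    · have h1 : ¬ (pat 2 x y = pat 1 (pat 2 x y 0) (pat 2 x y 1)) := by
        intro h
        exact hxy (congrFun h 2)
      change bet (pat 2 x y) = _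
      unfold bet
      rw [if_neg h1]
      exact if_pos rfl

/-- the inverse of the key -/
def rcv (b : Fin 6 → V) (r : Fin 3) : Fin 6 → V := if r = 0 then b else pat r (b 0) (b 2)

theorem rcv_eq (v : Fin 6 → V) : rcv (bet v) (rho v) = v := by
  classical
  by_cases h1 : v = pat 1 (v 0) (v 1)
  · have hb : bet v = pat 0 (v 0) (v 1) := by
      unfold bet
      exact if_pos h1
    have hr : rho v = 1 := by
      unfold rho
      exact if_pos h1
    rw [hb, hr]
    unfold rcv
    rw [if_neg (by decide)]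
    exact h1.symm
  · by_cases h2 : v = pat 2 (v 1) (v 0)
    · have hb : bet v = pat 0 (v 1) (v 0) := by
        unfold bet
        rw [if_neg h1]
        exact if_pos h2
      have hr : rho v = 2 := by
        unfold rho
        rw [if_neg h1]
        exact if_pos h2
      rw [hb, hr]
      unfold rcv
      rw [if_neg (by decide)]
      exact h2.symm
    · have hb : bet v = v := by
        unfold bet
        rw [if_neg h1, if_neg h2]
      have hr : rho v = 0 := by
        unfold rho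
        rw [if_neg h1, if_neg h2]
      rw [hb, hr]
      rfl

/-- the key of a name -/
noncomputable def key (n : Nm V) : Lex (Fin 6 → V) ×ₗ (Fin 3 ×ₗ V) :=
  toLex (toLex (bet n.v), toLex (rho n.v, n.a))

theorem key_inj : Injective (key (V := V)) := by
  intro n n' h
  have h1 : bet n.v = bet n'.v := congrArg (fun k => ofLex (ofLex k).1) h
  have h2 : rho n.v = rho n'.v := congrArg (fun k => (ofLex (ofLex k).2).1) h
  have h3 : n.a = n'.a := congrArg (fun k => (ofLex (ofLex k).2).2) h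
  have h4 : n.v = n'.v := by
    rw [← rcv_eq n.v, h1, h2, rcv_eq]
  exact Nm.ext h4 h3

variable [LinearOrder V]

noncomputable instance : LinearOrder (Nm V) := LinearOrder.lift' key key_inj

theorem nm_lt (n n' : Nm V) : n < n' ↔ toLex (bet n.v) < toLex (bet n'.v) ∨
    toLex (bet n.v) = toLex (bet n'.v) ∧ (rho n.v < rho n'.v ∨ rho n.v = rho n'.v ∧ n.a < n'.a) := by
  have h : n < n' ↔ key n < key n' := Iff.rfl
  rw [h]
  unfold key
  rw [Prod.Lex.toLex_lt_toLex, Prod.Lex.toLex_lt_toLex]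

theorem pat_lt (r : Fin 3) (x y x' y' s t : V) :
    ((⟨pat r x y, s⟩ : Nm V) < ⟨pat r x' y', t⟩) ↔
      ((⟨pat 0 x y, s⟩ : Nm V) < ⟨pat 0 x' y', t⟩) := by
  rw [nm_lt, nm_lt]
  simp only [bet_pat]
  by_cases h : pat 0 x y = pat 0 x' y'
  · obtain ⟨rfl, rfl⟩ := (pat_eq_iff 0 x y x' y').mp h
    simp
  · have h1 : ¬ (toLex (pat 0 x y) = toLex (pat 0 x' y')) := fun h2 => h h2
    constructor
    · rintro (h2 | ⟨h2, -⟩)
      · exact Or.inl h2
      · exact absurd h2 h1
    · rintro (h2 | ⟨h2, -⟩)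
      · exact Or.inl h2
      · exact absurd h2 h1

end Key

section Main

variable {V X : Type}

open Classical in
/-- the colour of a pair of names -/
noncomputable def cN (c : V → V → Option X) (fr : X) (n n' : Nm V) : Option X :=
  if n = n' then none
  else if (∃ l, n.v l = n.a ∧ n'.v l = n'.a) ∧ n.a ≠ n'.a then c n.a n'.a else some fr

theorem cN_pat (c : V → V → Option X) (fr : X) (r : Fin 3) (x y x' y' s t : V) :
    cN c fr ⟨pat r x y, s⟩ ⟨pat r x' y', t⟩ = cN c fr ⟨pat 0 x y, s⟩ ⟨pat 0 x' y', t⟩ := by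
  classical
  have h1 : ((⟨pat r x y, s⟩ : Nm V) = ⟨pat r x' y', t⟩) ↔
      ((⟨pat 0 x y, s⟩ : Nm V) = ⟨pat 0 x' y', t⟩) := by
    rw [Nm.ext_iff, Nm.ext_iff]
    simp only [pat_eq_iff]
  unfold cN
  simp only [h1, pat_rel]

/-- names of the points of the blocks in `F` -/
def NF (F : Finset (Fin 6 → V)) (n : Nm V) : Prop := n.v ∈ F ∧ ∃ l, n.v l = n.a

theorem NF_mk {F : Finset (Fin 6 → V)} {v : Fin 6 → V} (hv : v ∈ F) (l : Fin 6) :
    NF F ⟨v, v l⟩ := ⟨hv, l, rfl⟩

variable [LinearOrder V]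

/-- the hypothesis on systems -/
def SysC (c : V → V → Option X) (fr : X) : Prop :=
  ∀ (W : Type) [LinearOrder W] [Finite W] (u : W → V) (r : W → W → Prop),
    (∀ n n', r n n' → r n' n) → ∃ e : W → V, StrictMono e ∧ ∀ n n', n ≠ n' →
      (r n n' → u n ≠ u n' → c (e n) (e n') = c (u n) (u n')) ∧
      (¬ (r n n' ∧ u n ≠ u n') → c (e n) (e n') = some fr)

theorem exists_E {c : V → V → Option X} {fr : X} (hc : ∀ x y, c x y = none ↔ x = y)
    (hsys : SysC c fr) (F : Finset (Fin 6 → V)) : ∃ E : Nm V → V,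
      ∀ n n', NF F n → NF F n' → (E n < E n' ↔ n < n') ∧ c (E n) (E n') = cN c fr n n' := by
  classical
  have hfin : Finite {n : Nm V // NF F n} := by
    refine Finite.of_surjective (α := F × Fin 6)
      (fun p => (⟨⟨p.1.1, p.1.1 p.2⟩, NF_mk p.1.2 p.2⟩ : {n : Nm V // NF F n})) ?_
    rintro ⟨⟨v, a⟩, hv, l, hl⟩
    refine ⟨(⟨v, hv⟩, l), ?_⟩
    apply Subtype.ext
    exact Nm.ext rfl hl
  obtain ⟨e, he, hcol⟩ := hsys {n : Nm V // NF F n} (fun n => n.1.a)
    (fun n n' => ∃ l, n.1.v l = n.1.a ∧ n'.1.v l = n'.1.a)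
    (fun n n' ⟨l, h1, h2⟩ => ⟨l, h2, h1⟩)
  refine ⟨fun n => if h : NF F n then e ⟨n, h⟩ else n.a, ?_⟩
  intro n n' hn hn'
  simp only [dif_pos hn, dif_pos hn']
  refine ⟨?_, ?_⟩
  · rw [he.lt_iff_lt]
    exact Iff.rfl
  · unfold cN
    by_cases hnn : n = n'
    · subst hnn
      rw [if_pos rfl]
      exact (hc _ _).mpr rfl
    · rw [if_neg hnn]
      have hne : (⟨n, hn⟩ : {n : Nm V // NF F n}) ≠ ⟨n', hn'⟩ := fun h =>
        hnn (congrArg Subtype.val h)
      obtain ⟨h1, h2⟩ := hcol _ _ hne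
      by_cases hr : (∃ l, n.v l = n.a ∧ n'.v l = n'.a) ∧ n.a ≠ n'.a
      · rw [if_pos hr]
        exact h1 hr.1 hr.2
      · rw [if_neg hr]
        exact h2 hr

/-- reindexing -/
theorem same_comp {c : V → V → Option X} {I J : Type} {x y : I → V} (h : Same c x y)
    (g : J → I) : Same c (fun j => x (g j)) (fun j => y (g j)) := fun i j => h (g i) (g j)

/-- the core of the row, for all colourings -/
theorem core {c : V → V → Option X} {fr : X} (hc : ∀ x y, c x y = none ↔ x = y)
    (hsys : SysC c fr) {h : (Fin 6 → V) → (Fin 6 → V) → Option X}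
    (tinv : ∀ v w v' w' : Fin 6 → V, Same c (Sum.elim v w) (Sum.elim v' w') → h v w = h v' w')
    (hex : ∀ (r : Fin 3) (x y x' y' : V),
      h (pat r x y) (pat r x' y') = h (pat 0 x y) (pat 0 x' y')) : ∃ h', Blk c h h' := by
  classical
  choose E hE using exists_E hc hsys
  -- types of families of names
  have hsame : ∀ (F F' : Finset (Fin 6 → V)) (I : Type) (N N' : I → Nm V),
      (∀ i, NF F (N i)) → (∀ i, NF F' (N' i)) → (∀ i j, (N i < N j ↔ N' i < N' j) ∧
        cN c fr (N i) (N j) = cN c fr (N' i) (N' j)) →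
      Same c (fun i => E F (N i)) (fun i => E F' (N' i)) := by
    intro F F' I N N' hN hN' hNN i j
    obtain ⟨h1, h2⟩ := hE F _ _ (hN i) (hN j)
    obtain ⟨h3, h4⟩ := hE F' _ _ (hN' i) (hN' j)
    refine ⟨?_, ?_⟩
    · rw [h1, h3]
      exact (hNN i j).1
    · rw [h2, h4]
      exact (hNN i j).2
  let e : Finset (Fin 6 → V) → (Fin 6 → V) → Fin 6 → V := fun F v l => E F ⟨v, v l⟩
  have hind : ∀ (F F' : Finset (Fin 6 → V)) (v w : Fin 6 → V), v ∈ F → w ∈ F → v ∈ F' → w ∈ F' →
      h (e F v) (e F w) = h (e F' v) (e F' w) := by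
    intro F F' v w h1 h2 h3 h4
    apply tinv
    have h5 := hsame F F' (Fin 6 ⊕ Fin 6) (Sum.elim (fun l => ⟨v, v l⟩) fun l => ⟨w, w l⟩)
      (Sum.elim (fun l => ⟨v, v l⟩) fun l => ⟨w, w l⟩)
      (fun i => by
        rcases i with l | l
        · exact NF_mk h1 l
        · exact NF_mk h2 l)
      (fun i => by
        rcases i with l | l
        · exact NF_mk h3 l
        · exact NF_mk h4 l)
      (fun i j => ⟨Iff.rfl, rfl⟩)
    have h6 : ∀ G : Finset (Fin 6 → V), (fun i => E G ((Sum.elim (fun l => (⟨v, v l⟩ : Nm V))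
        fun l => ⟨w, w l⟩) i)) = Sum.elim (e G v) (e G w) := by
      intro G
      funext i
      rcases i with l | l <;> rfl
    rw [h6, h6] at h5
    exact h5
  refine ⟨fun v w => h (e {v, w} v) (e {v, w} w), ?_, ?_⟩
  · intro r x y x' y'
    -- the blocks as patterns
    have hpat : ∀ (F : Finset (Fin 6 → V)) (r : Fin 3) (x y : V),
        e F (pat r x y) = pat r (E F ⟨pat r x y, x⟩) (E F ⟨pat r x y, y⟩) := by
      intro F r x y
      funext l
      exact pat_map (fun s => E F ⟨pat r x y, s⟩) r x y l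
    have hmem : ∀ (F : Finset (Fin 6 → V)) (r : Fin 3) (x y : V), pat r x y ∈ F →
        NF F ⟨pat r x y, x⟩ ∧ NF F ⟨pat r x y, y⟩ := by
      intro F r x y hF
      have h1 := (pat_rel r x y x y x x).mpr (Or.inl ⟨rfl, rfl⟩)
      have h2 := (pat_rel r x y x y y y).mpr (Or.inr ⟨rfl, rfl⟩)
      obtain ⟨l1, h3, -⟩ := h1
      obtain ⟨l2, h4, -⟩ := h2
      exact ⟨⟨hF, l1, h3⟩, ⟨hF, l2, h4⟩⟩
    change h (e {pat r x y, pat r x' y'} (pat r x y)) (e {pat r x y, pat r x' y'} (pat r x' y')) =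
      h (e {pat 0 x y, pat 0 x' y'} (pat 0 x y)) (e {pat 0 x y, pat 0 x' y'} (pat 0 x' y'))
    rw [hpat, hpat, hpat, hpat, hex]
    apply tinv
    -- four names
    let N : Fin 3 → Bool × Bool → Nm V := fun r i =>
      ⟨pat r (if i.1 then x' else x) (if i.1 then y' else y),
        if i.2 then (if i.1 then y' else y) else (if i.1 then x' else x)⟩
    have hNmem : ∀ r : Fin 3, ∀ i, NF {pat r x y, pat r x' y'} (N r i) := by
      intro r i
      obtain ⟨i1, i2⟩ := i
      cases i1 <;> cases i2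
      · exact (hmem _ r x y (by simp)).1
      · exact (hmem _ r x y (by simp)).2
      · exact (hmem _ r x' y' (by simp)).1
      · exact (hmem _ r x' y' (by simp)).2
    have h5 := hsame {pat r x y, pat r x' y'} {pat 0 x y, pat 0 x' y'} (Bool × Bool) (N r) (N 0)
      (hNmem r) (hNmem 0) (fun i j => ⟨pat_lt r _ _ _ _ _ _, cN_pat c fr r _ _ _ _ _ _⟩)
    have h6 := same_comp h5 (Sum.elim (fun l : Fin 6 => ((false, pat 0 false true l) : Bool × Bool))
      fun l : Fin 6 => (true, pat 0 false true l))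
    have h7 : ∀ r : Fin 3, (fun j : Fin 6 ⊕ Fin 6 => E {pat r x y, pat r x' y'} (N r
        ((Sum.elim (fun l : Fin 6 => ((false, pat 0 false true l) : Bool × Bool))
          fun l : Fin 6 => (true, pat 0 false true l)) j))) =
        Sum.elim (pat 0 (E {pat r x y, pat r x' y'} ⟨pat r x y, x⟩)
          (E {pat r x y, pat r x' y'} ⟨pat r x y, y⟩))
          (pat 0 (E {pat r x y, pat r x' y'} ⟨pat r x' y', x'⟩)
            (E {pat r x y, pat r x' y'} ⟨pat r x' y', y'⟩)) := by
      intro r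
      funext j
      rcases j with l | l
      · exact pat_map (fun t : Bool => E {pat r x y, pat r x' y'} (N r (false, t))) 0 false true l
      · exact pat_map (fun t : Bool => E {pat r x y, pat r x' y'} (N r (true, t))) 0 false true l
    rw [h7 r, h7 0] at h6
    exact h6
  · intro F
    refine ⟨e F, ?_, ?_, ?_⟩
    · intro v hv w hw hvw l l' heq
      have h1 := hE F ⟨v, v l⟩ ⟨w, w l'⟩ (NF_mk hv l) (NF_mk hw l')
      have h2 : c (e F v l) (e F w l') = none := (hc _ _).mpr heq
      have h3 : cN c fr ⟨v, v l⟩ ⟨w, w l'⟩ = none := by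
        rw [← h1.2]
        exact h2
      have h4 : ¬ ((⟨v, v l⟩ : Nm V) = ⟨w, w l'⟩) := fun h => hvw (congrArg Nm.v h)
      unfold cN at h3
      rw [if_neg h4] at h3
      by_cases hr : (∃ k, v k = v l ∧ w k = w l') ∧ v l ≠ w l'
      · rw [if_pos hr] at h3
        exact hr.2 ((hc _ _).mp h3)
      · rw [if_neg hr] at h3
        exact absurd h3 (by simp)
    · intro v hv w hw l hl
      have h1 := (hE F ⟨v, v l⟩ ⟨w, w l⟩ (NF_mk hv l) (NF_mk hw l)).2
      have h2 : cN c fr ⟨v, v l⟩ ⟨w, w l⟩ = c (v l) (w l) := by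
        unfold cN
        rw [if_neg (fun h => hl (congrArg Nm.a h)), if_pos ⟨⟨l, rfl, rfl⟩, hl⟩]
      rw [← h2, ← h1]
    · intro v hv w hw
      exact hind _ _ v w (by simp) (by simp) hv hw

end Main

theorem pf_BKS (hSYS : T_SYS) : T_BKS := by
  intro σ V X _ 𝔸 M c fr hs h hO
  exact core hs.col.none_iff
    (fun W _ _ u r hr => hSYS σ V X 𝔸 M c fr hs W u r hr) hO.tinv hO.exact

end Pool.Agent.H2.EQM
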